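import Pool.Agent.FTU.Stmts
import Pool.Agent.Helper28_MBX.NFI

/-!
# FTU, row COR (MP_8cfbae_mp): the energy of the trial function
-/

set_option autoImplicit false

open MeasureTheory Complex ProbabilityTheory MvPolynomial

noncomputable section

namespace Pool.Agent.FTU.H99

open Pool.Agent.Helper49_Pauli
open Pool.Agent.MBX
open Pool.Agent.Loc (γn PB)

section tools

variable {ι : Type} [Fintype ι] [DecidableEq ι]

theorem II_eq {F : (ι → ℝ) → X3 → ℝ} (hF : NF F) :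
    II F = ∫ x : X3, ∫ y, F y x ∂(γn ι) ∧ Integrable (fun x : X3 => ∫ y, F y x ∂(γn ι)) := by
  have h1 : Integrable (fun z : (ι → ℝ) × X3 => F z.1 z.2) ((γn ι).prod volume) :=
    Pool.Agent.MBX.H28.nfi ι F hF
  exact ⟨integral_prod_symm _ h1, h1.integral_prod_right⟩

theorem II_le {F : (ι → ℝ) → X3 → ℝ} (hF : NF F) {b : X3 → ℝ} (hb : Integrable b)
    (h : ∀ x, ∫ y, F y x ∂(γn ι) ≤ b x) : II F ≤ ∫ x : X3, b x := by
  obtain ⟨h1, h2⟩ := II_eq hF
  rw [h1]
  exact integral_mono h2 hb h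

theorem le_II {F : (ι → ℝ) → X3 → ℝ} (hF : NF F) {b : X3 → ℝ} (hb : Integrable b)
    (h : ∀ x, b x ≤ ∫ y, F y x ∂(γn ι)) : ∫ x : X3, b x ≤ II F := by
  obtain ⟨h1, h2⟩ := II_eq hF
  rw [h1]
  exact integral_mono hb h2 h

end tools

theorem sc_smooth {bp : X3 → ℝ} {CB : ℝ} (hB : Bump bp CB) (l : ℝ) :
    ContDiff ℝ (⊤ : ℕ∞) (sc bp l) := by
  unfold sc
  exact hB.smooth.comp (contDiff_const_smul l⁻¹)

theorem sc_supp {bp : X3 → ℝ} {CB : ℝ} (hB : Bump bp CB) {l : ℝ} (hl : 1 ≤ l) :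
    HasCompactSupport (sc bp l) := by
  refine HasCompactSupport.of_support_subset_isCompact (isCompact_closedBall (0 : X3) l) ?_
  intro x hx
  rw [mem_closedBall_zero_iff, pi_norm_le_iff_of_nonneg (by linarith)]
  intro j
  by_contra hj
  apply hx
  unfold sc
  apply hB.zero
  refine ⟨j, ?_⟩
  have h1 : l < |x j| := by
    rw [Real.norm_eq_abs] at hj
    exact lt_of_not_ge hj
  have h2 : (l⁻¹ • x) j = l⁻¹ * x j := rfl
  rw [h2, abs_mul, abs_of_pos (inv_pos.2 (by linarith : (0 : ℝ) < l)),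
    inv_mul_eq_div, one_le_div (by linarith : (0 : ℝ) < l)]
  exact h1.le

theorem Bg_anti {ι : Type} [Fintype ι] {S : Sys ι} {et l K cost : ℝ} {n n' : ℕ} {e : ι → ℝ}
    (h : S.Bg et l K cost n e) (hn : n' ≤ n) : S.Bg et l K cost n' e :=
  ⟨h.1, fun c p q r hp => h.2 c p q r (hp.trans hn)⟩

theorem cor (tcd : TcdStmt) (nft : NftStmt) (trc : TrcStmt) (drx : DrxStmt) (flx : FlxStmt)
    (exn : ExnStmt) (xin : XinStmt) : CorStmt := by
  intro bp CB hB M eps u f h r1 r2 hM heps hcj hf hD1 hD2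
  obtain ⟨m1, n1, H1⟩ := drx bp CB hB M eps u f r1 r2 hM heps hcj hD1 hD2
  obtain ⟨m2, n2, H2⟩ := flx bp CB hB eps u f
  obtain ⟨m3, n3, H3⟩ := exn bp CB hB eps u f h hf
  obtain ⟨X1, hX1, Y1⟩ := xin.1 m1
  obtain ⟨X2, hX2, Y2⟩ := xin.1 m2
  obtain ⟨X3', hX3, Y3⟩ := xin.1 m3
  obtain ⟨c, hc, Yc⟩ := xin.2
  refine ⟨max n1 (max n2 n3), ?_⟩
  intro K
  obtain ⟨C1, hC1, G1⟩ := H1 K
  obtain ⟨C2, hC2, G2⟩ := H2 K
  obtain ⟨C3, hC3, G3⟩ := H3 K
  have hp3 : 0 ≤ C3 * X3' := mul_nonneg hC3 hX3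
  have hp1 : 0 ≤ C1 * X1 := mul_nonneg hC1 hX1
  have hp2 : 0 ≤ C2 * X2 := mul_nonneg hC2 hX2
  have hc4 : 0 < 4 / c := by positivity
  refine ⟨4 / c + C1 * X1 + C2 * X2, min 1 (c / (4 * (C3 * X3' + 1))), by positivity,
    by positivity, min_le_left _ _, ?_⟩
  intro ι _ _ S ell et l cost e hG het het0 hl hle hcost hBg psi hpsi
  have het1 : et ≤ 1 := het0.trans (min_le_left _ _)
  have hV : 0 < l * et ^ 4 := by positivity
  have hTC0 : TC (S.tri et eps u f (sc bp l)) :=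
    trc ι S et eps u f (sc bp l) het.ne' (sc_smooth hB l) (sc_supp hB hl)
  have hTC : TC psi := by
    rw [hpsi]
    exact (tcd ι _ hTC0).2.2.2.1 e
  obtain ⟨N1, N2, N3⟩ := nft ι psi hTC
  obtain ⟨I1, J1⟩ := Y1 et l het het1 hl
  obtain ⟨I2, J2⟩ := Y2 et l het het1 hl
  obtain ⟨I3, J3⟩ := Y3 et l het het1 hl
  have Jc := Yc bp CB hB et l het het1 hl
  have hBg1 := Bg_anti hBg (le_max_left n1 (max n2 n3))
  have hBg2 := Bg_anti hBg ((le_max_left n2 n3).trans (le_max_right n1 (max n2 n3)))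
  have hBg3 := Bg_anti hBg ((le_max_right n2 n3).trans (le_max_right n1 (max n2 n3)))
  refine ⟨hTC, ?_, ?_, ?_⟩
  · -- the norm from below
    have Ic : Integrable (fun x : X3 => sc bp l x ^ 2 * gs et x ^ 2) := by
      by_contra hn
      rw [integral_undef hn] at Jc
      have : 0 < c * (l * et ^ 4) := mul_pos hc hV
      linarith
    have hlow : ∫ x : X3, (1 / 2 * (sc bp l x ^ 2 * gs et x ^ 2) -
        C3 * et ^ 2 * (cube l x * (1 + ‖zt et x‖) ^ m3 * gs et x ^ 2)) ≤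
        II (fun y x => nsq (psi y x)) := by
      refine le_II N1 ((Ic.const_mul (1 / 2)).sub (I3.const_mul (C3 * et ^ 2))) ?_
      intro x
      rw [hpsi]
      exact G3 ι S ell et l cost e hG het het1 hl hBg3 x
    rw [integral_sub (Ic.const_mul (1 / 2)) (I3.const_mul (C3 * et ^ 2)), integral_const_mul,
      integral_const_mul] at hlow
    have hsmall : C3 * X3' * et ^ 2 ≤ c / 4 := by
      have h1 : et ^ 2 ≤ et := by nlinarith
      have h2 : et ≤ c / (4 * (C3 * X3' + 1)) := het0.trans (min_le_right _ _)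
      have h3 : et * (4 * (C3 * X3' + 1)) ≤ c := (le_div_iff₀ (by positivity)).1 h2
      nlinarith
    have h5 : C3 * et ^ 2 * ∫ x : X3, cube l x * (1 + ‖zt et x‖) ^ m3 * gs et x ^ 2 ≤
        C3 * et ^ 2 * (X3' * (l * et ^ 4)) := mul_le_mul_of_nonneg_left J3 (by positivity)
    have h6 : C3 * et ^ 2 * (X3' * (l * et ^ 4)) ≤ c / 4 * (l * et ^ 4) := by
      have : C3 * et ^ 2 * (X3' * (l * et ^ 4)) = C3 * X3' * et ^ 2 * (l * et ^ 4) := by ring
      rw [this]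
      exact mul_le_mul_of_nonneg_right hsmall hV.le
    have h7 : c / 4 * (l * et ^ 4) ≤ II (fun y x => nsq (psi y x)) := by linarith
    have hII : 0 ≤ II (fun y x => nsq (psi y x)) := le_trans (by positivity) h7
    have h8 : l * et ^ 4 ≤ 4 / c * II (fun y x => nsq (psi y x)) := by
      have h9 : 4 / c * (c / 4 * (l * et ^ 4)) = l * et ^ 4 := by field_simp
      calc l * et ^ 4 = 4 / c * (c / 4 * (l * et ^ 4)) := h9.symm
        _ ≤ _ := mul_le_mul_of_nonneg_left h7 hc4.le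
    refine h8.trans (mul_le_mul_of_nonneg_right (by linarith) hII)
  · -- the Dirac energy
    have hA : 0 ≤ (l⁻¹) ^ 2 + et ^ (2 * M - 4) + (1 + cost) * et ^ (4 * M) := by positivity
    have hup : II (fun y x => nsq (dop (S.fld fun i => y i + e i) (psi y) x)) ≤
        ∫ x : X3, C1 * ((l⁻¹) ^ 2 + et ^ (2 * M - 4) + (1 + cost) * et ^ (4 * M)) *
          (cube l x * (1 + ‖zt et x‖) ^ m1 * gs et x ^ 2) := by
      refine II_le (N2 S e) (I1.const_mul _) ?_
      intro x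
      rw [hpsi]
      exact G1 ι S ell et l cost e hG het het1 hl hcost hBg1 x
    rw [integral_const_mul] at hup
    refine hup.trans ?_
    have h1 : C1 * ((l⁻¹) ^ 2 + et ^ (2 * M - 4) + (1 + cost) * et ^ (4 * M)) *
        ∫ x : X3, cube l x * (1 + ‖zt et x‖) ^ m1 * gs et x ^ 2 ≤
        C1 * ((l⁻¹) ^ 2 + et ^ (2 * M - 4) + (1 + cost) * et ^ (4 * M)) * (X1 * (l * et ^ 4)) :=
      mul_le_mul_of_nonneg_left J1 (mul_nonneg hC1 hA)
    refine h1.trans ?_
    have h2 : C1 * ((l⁻¹) ^ 2 + et ^ (2 * M - 4) + (1 + cost) * et ^ (4 * M)) *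
        (X1 * (l * et ^ 4)) =
        (C1 * X1) * (((l⁻¹) ^ 2 + et ^ (2 * M - 4) + (1 + cost) * et ^ (4 * M)) *
          (l * et ^ 4)) := by ring
    rw [h2, mul_assoc (4 / c + C1 * X1 + C2 * X2)]
    exact mul_le_mul_of_nonneg_right (by linarith) (mul_nonneg hA hV.le)
  · -- the field energy
    have hup : II (fun y x => ∑ i, S.w i * nsq (dY2 i psi y x)) ≤
        ∫ x : X3, C2 * l * (cube l x * (1 + ‖zt et x‖) ^ m2 * gs et x ^ 2) := by
      refine II_le (N3 S.w) (I2.const_mul _) ?_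
      intro x
      rw [hpsi]
      exact G2 ι S ell et l cost e hG het het1 hl hle hBg2 x
    rw [integral_const_mul] at hup
    refine hup.trans ?_
    have h1 : C2 * l * ∫ x : X3, cube l x * (1 + ‖zt et x‖) ^ m2 * gs et x ^ 2 ≤
        C2 * l * (X2 * (l * et ^ 4)) := mul_le_mul_of_nonneg_left J2 (by positivity)
    refine h1.trans ?_
    have h2 : C2 * l * (X2 * (l * et ^ 4)) = (C2 * X2) * (l * (l * et ^ 4)) := by ring
    rw [h2, mul_assoc (4 / c + C1 * X1 + C2 * X2)]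
    exact mul_le_mul_of_nonneg_right (by linarith) (by positivity)

end Pool.Agent.FTU.H99
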